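import Pool.Agent.Run7.h404.FL.Iface

set_option autoImplicit false
set_option linter.unusedVariables false

namespace Run7.h510.FL

open Set Topology Filter Run7.h404.FL

/-- a function constant at small steps is constant -/
theorem step_const {D : ℝ → ℝ} {η : ℝ} (hη : 0 < η)
    (h : ∀ s ∈ Icc (0:ℝ) 1, ∀ t ∈ Icc (0:ℝ) 1, |s - t| < η → D t = D s) : D 1 = D 0 := by
  obtain ⟨n, hn⟩ := exists_nat_gt (1 / η)
  have hn0 : (0:ℝ) < n := lt_trans (by positivity) hn
  have key : ∀ i : ℕ, i ≤ n → D ((i:ℝ) / n) = D 0 := by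
    intro i
    induction i with
    | zero => intro _; simp
    | succ i ih =>
      intro hi
      have hi' : (i:ℝ) + 1 ≤ n := by exact_mod_cast hi
      have h1 : ((i:ℝ)) / n ∈ Icc (0:ℝ) 1 := ⟨by positivity, by rw [div_le_one hn0]; linarith⟩
      have h2 : ((i + 1 : ℕ):ℝ) / n ∈ Icc (0:ℝ) 1 :=
        ⟨by positivity, by rw [div_le_one hn0]; push_cast; linarith⟩
      have h3 : |((i:ℝ)) / n - ((i + 1 : ℕ):ℝ) / n| < η := by
        have : ((i:ℝ)) / n - ((i + 1 : ℕ):ℝ) / n = -(1 / n) := by push_cast; field_simp; ring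
        rw [this, abs_neg, abs_of_pos (by positivity)]
        rw [div_lt_iff₀ hη] at hn
        rw [div_lt_iff₀ hn0]
        linarith
      rw [h _ h1 _ h2 h3]
      exact ih (by omega)
  have := key n le_rfl
  rwa [div_self hn0.ne'] at this

/-- a primitive along the unit interval -/
theorem exists_prim {β : ℝ → ℝ → ℝ} {η : ℝ} (hη : 0 < η)
    (h : ∀ r ∈ Icc (0:ℝ) 1, ∀ s ∈ Icc (0:ℝ) 1, ∀ t ∈ Icc (0:ℝ) 1, |r - s| < η → |s - t| < η →
      |r - t| < η → β s t - β r t + β r s = 0) :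
    ∃ G : ℝ → ℝ, G 0 = 0 ∧ ∀ s ∈ Icc (0:ℝ) 1, ∀ t ∈ Icc (0:ℝ) 1, |s - t| < η →
      G t - G s = β s t := by
  obtain ⟨n, hn⟩ := exists_nat_gt (2 / η)
  have hn0 : (0:ℝ) < n := lt_trans (by positivity) hn
  have hstep : (1:ℝ) / n < η / 2 := by
    rw [div_lt_iff₀ hη] at hn
    rw [div_lt_iff₀ hn0]
    linarith
  have hz : ∀ s ∈ Icc (0:ℝ) 1, β s s = 0 := by
    intro s hs
    have := h s hs s hs s hs (by simpa using hη) (by simpa using hη) (by simpa using hη)
    linarith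
  have hanti : ∀ s ∈ Icc (0:ℝ) 1, ∀ t ∈ Icc (0:ℝ) 1, |s - t| < η → β s t = - β t s := by
    intro s hs t ht hst
    have h1 := h s hs t ht s hs hst (by rwa [abs_sub_comm]) (by simpa using hη)
    rw [hz s hs] at h1
    linarith
  have key : ∀ k : ℕ, k ≤ n → ∃ G : ℝ → ℝ, G 0 = 0 ∧ ∀ s ∈ Icc (0:ℝ) ((k:ℝ) / n),
      ∀ t ∈ Icc (0:ℝ) ((k:ℝ) / n), |s - t| < η → G t - G s = β s t := by
    intro k
    induction k with
    | zero =>
      intro _
      refine ⟨fun _ => 0, rfl, ?_⟩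
      intro s hs t ht _
      simp only [Nat.cast_zero, zero_div, Icc_self, mem_singleton_iff] at hs ht
      rw [hs, ht, hz 0 ⟨le_rfl, zero_le_one⟩, sub_self]
    | succ k ih =>
      intro hk
      obtain ⟨G, hG0, hG⟩ := ih (by omega)
      have hk' : (k:ℝ) + 1 ≤ n := by exact_mod_cast hk
      set c : ℝ := (k:ℝ) / n with hc
      have hc0 : 0 ≤ c := by positivity
      have hc1 : ((k + 1 : ℕ):ℝ) / n = c + 1 / n := by rw [hc]; push_cast; field_simp
      have hc2 : c + 1 / n ≤ 1 := by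
        rw [← hc1, div_le_one hn0]; push_cast; exact hk'
      have hnn : (0:ℝ) < 1 / n := by positivity
      have hcI : c ∈ Icc (0:ℝ) 1 := ⟨hc0, by linarith⟩
      rw [hc1]
      refine ⟨fun t => if t ≤ c then G t else G c + β c t, by simp [hc0, hG0], ?_⟩
      -- the case `s ≤ t`
      have main : ∀ s ∈ Icc (0:ℝ) (c + 1 / n), ∀ t ∈ Icc (0:ℝ) (c + 1 / n), s ≤ t → |s - t| < η →
          (if t ≤ c then G t else G c + β c t) - (if s ≤ c then G s else G c + β c s) = β s t := by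
        intro s hs t ht hst hd
        have hsI : s ∈ Icc (0:ℝ) 1 := ⟨hs.1, hs.2.trans hc2⟩
        have htI : t ∈ Icc (0:ℝ) 1 := ⟨ht.1, ht.2.trans hc2⟩
        rw [abs_of_nonpos (by linarith)] at hd
        by_cases h1 : t ≤ c
        · rw [if_pos h1, if_pos (hst.trans h1)]
          exact hG s ⟨hs.1, hst.trans h1⟩ t ⟨ht.1, h1⟩ (by
            rw [abs_of_nonpos (by linarith)]; exact hd)
        · push Not at h1
          rw [if_neg (not_le.2 h1)]
          have e1 : |c - t| < η := by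
            rw [abs_of_neg (by linarith)]; linarith [ht.2]
          by_cases h2 : s ≤ c
          · rw [if_pos h2]
            have h3 := hG s ⟨hs.1, h2⟩ c ⟨hc0, le_rfl⟩ (by
              rw [abs_of_nonpos (by linarith)]; linarith)
            have h4 := h s hsI c hcI t htI (by rw [abs_of_nonpos (by linarith)]; linarith) e1
              (by rw [abs_of_nonpos (by linarith)]; linarith)
            linarith
          · push Not at h2
            rw [if_neg (not_le.2 h2)]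
            have h4 := h c hcI s hsI t htI (by rw [abs_of_neg (by linarith)]; linarith [hs.2])
              (by rw [abs_of_nonpos (by linarith)]; linarith) e1
            linarith
      intro s hs t ht hd
      have hsI : s ∈ Icc (0:ℝ) 1 := ⟨hs.1, hs.2.trans hc2⟩
      have htI : t ∈ Icc (0:ℝ) 1 := ⟨ht.1, ht.2.trans hc2⟩
      rcases le_total s t with hst | hst
      · exact main s hs t ht hst hd
      · have h1 := main t ht s hs hst (by rwa [abs_sub_comm])
        rw [hanti s hsI t htI hd, ← h1]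
        show _ - _ = _
        ring
  obtain ⟨G, hG0, hG⟩ := key n le_rfl
  rw [div_self hn0.ne'] at hG
  exact ⟨G, hG0, hG⟩

section

variable {E : Type} [NormedAddCommGroup E] [NormedSpace ℝ E]

/-- the point of the segment -/
def qq (x₀ x : E) (t : ℝ) : E := x₀ + t • (x - x₀)

theorem dist_qq (x₀ x : E) (s t : ℝ) : dist (qq x₀ x s) (qq x₀ x t) = |s - t| * ‖x - x₀‖ := by
  unfold qq
  rw [dist_add_left, dist_eq_norm, ← sub_smul, norm_smul, Real.norm_eq_abs]

theorem dist_qq' (x₀ x y : E) {t : ℝ} (ht : t ∈ Icc (0:ℝ) 1) :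
    dist (qq x₀ x t) (qq x₀ y t) ≤ dist x y := by
  unfold qq
  rw [dist_add_left, dist_eq_norm, ← smul_sub, norm_smul, Real.norm_eq_abs, abs_of_nonneg ht.1,
    dist_eq_norm]
  have e : x - x₀ - (y - x₀) = x - y := by abel
  rw [e]
  exact mul_le_of_le_one_left (norm_nonneg _) ht.2

/-- uniform closedness along the segment -/
def NN (b : E → E → ℝ) (x₀ x : E) (δ : ℝ) : Prop :=
  ∀ t ∈ Icc (0:ℝ) 1, ∀ y ∈ Metric.ball (qq x₀ x t) δ, ∀ z ∈ Metric.ball (qq x₀ x t) δ,
    ∀ v ∈ Metric.ball (qq x₀ x t) δ, dd b y z v = 0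

theorem exists_NN {S : Set E} {b : E → E → ℝ} (hS : Convex ℝ S) (hb : ∀ x ∈ S, C1 b x) {x₀ x : E}
    (h0 : x₀ ∈ S) (hx : x ∈ S) : ∃ δ > 0, NN b x₀ x δ := by
  have hK : IsCompact ((qq x₀ x) '' Icc (0:ℝ) 1) := by
    apply isCompact_Icc.image
    unfold qq
    fun_prop
  have hsub : ∀ t ∈ Icc (0:ℝ) 1, qq x₀ x t ∈ S := by
    intro t ht
    have := hS h0 hx (a := 1 - t) (b := t) (by linarith [ht.2]) ht.1 (by ring)
    convert this using 1
    unfold qq
    module
  obtain ⟨δ, hδ, h⟩ := lebesgue_number_lemma_of_metric (ι := {w : E // C1 b w})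
    (c := fun w => interior (Classical.choose w.2)) hK (fun _ => isOpen_interior) (by
      rintro _ ⟨t, ht, rfl⟩
      rw [mem_iUnion]
      refine ⟨⟨qq x₀ x t, hb _ (hsub t ht)⟩, ?_⟩
      exact mem_interior_iff_mem_nhds.2 (Classical.choose_spec (hb _ (hsub t ht))).1)
  refine ⟨δ, hδ, ?_⟩
  intro t ht y hy z hz v hv
  obtain ⟨i, hi⟩ := h _ ⟨t, ht, rfl⟩
  have hsp := (Classical.choose_spec i.2).2
  exact hsp y (interior_subset (hi hy)) z (interior_subset (hi hz)) v (interior_subset (hi hv))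

/-- the primitive along the segment -/
def HG (b : E → E → ℝ) (x₀ x : E) (g : ℝ → ℝ) : Prop :=
  ∃ η > 0, g 0 = 0 ∧ ∀ s ∈ Icc (0:ℝ) 1, ∀ t ∈ Icc (0:ℝ) 1, |s - t| < η →
    g t - g s = b (qq x₀ x s) (qq x₀ x t)

theorem exists_HG {b : E → E → ℝ} {x₀ x : E} {δ : ℝ} (hδ : 0 < δ) (h : NN b x₀ x δ) :
    ∃ g, HG b x₀ x g := by
  have hpos : 0 < ‖x - x₀‖ + 1 := by positivity
  have hη : 0 < δ / (‖x - x₀‖ + 1) := by positivity
  have hd : ∀ s t : ℝ, |s - t| < δ / (‖x - x₀‖ + 1) → dist (qq x₀ x s) (qq x₀ x t) < δ := by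
    intro s t hst
    rw [dist_qq]
    rw [lt_div_iff₀ hpos] at hst
    nlinarith [abs_nonneg (s - t), norm_nonneg (x - x₀)]
  obtain ⟨G, hG0, hG⟩ := exists_prim (β := fun s t => b (qq x₀ x s) (qq x₀ x t)) hη (by
    intro r hr s hs t ht h1 h2 h3
    have := h r hr (qq x₀ x r) (Metric.mem_ball_self hδ) (qq x₀ x s)
      (by rw [Metric.mem_ball, dist_comm]; exact hd r s h1) (qq x₀ x t)
      (by rw [Metric.mem_ball, dist_comm]; exact hd r t h3)
    unfold dd at this
    linarith)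
  exact ⟨G, _, hη, hG0, hG⟩

/-- comparison of the primitives of neighbouring segments -/
theorem compare {b : E → E → ℝ} {x₀ x y z : E} {δ : ℝ} (hδ : 0 < δ) (h : NN b x₀ x δ)
    (hy : dist y x < δ / 2) (hz : dist z x < δ / 2) {g g' : ℝ → ℝ} (hg : HG b x₀ y g)
    (hg' : HG b x₀ z g') : b y z = g' 1 - g 1 := by
  obtain ⟨η₁, hη₁, hg0, hg1⟩ := hg
  obtain ⟨η₂, hη₂, hg0', hg1'⟩ := hg'
  have hpos : 0 < ‖y - x₀‖ + ‖z - x₀‖ + 1 := by positivity
  have hη₃ : 0 < δ / 2 / (‖y - x₀‖ + ‖z - x₀‖ + 1) := by positivity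
  have hb0 : b x₀ x₀ = 0 := by
    have := h 0 ⟨le_rfl, zero_le_one⟩ (qq x₀ x 0) (Metric.mem_ball_self hδ) (qq x₀ x 0)
      (Metric.mem_ball_self hδ) (qq x₀ x 0) (Metric.mem_ball_self hδ)
    unfold dd qq at this
    simpa using this
  set η := min η₁ (min η₂ (δ / 2 / (‖y - x₀‖ + ‖z - x₀‖ + 1))) with hηd
  have hη : 0 < η := lt_min hη₁ (lt_min hη₂ hη₃)
  have key := step_const (D := fun t => g t + b (qq x₀ y t) (qq x₀ z t) - g' t) hη (by
    intro s hs t ht hst
    have e1 : |s - t| < η₁ := hst.trans_le (min_le_left _ _)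
    have e2 : |s - t| < η₂ := hst.trans_le ((min_le_right _ _).trans (min_le_left _ _))
    have e3 : |s - t| < δ / 2 / (‖y - x₀‖ + ‖z - x₀‖ + 1) :=
      hst.trans_le ((min_le_right _ _).trans (min_le_right _ _))
    rw [lt_div_iff₀ hpos] at e3
    have i1 := hg1 s hs t ht e1
    have i2 := hg1' s hs t ht e2
    have d1 : dist (qq x₀ y s) (qq x₀ x s) < δ / 2 := (dist_qq' x₀ y x hs).trans_lt hy
    have d2 : dist (qq x₀ z s) (qq x₀ x s) < δ / 2 := (dist_qq' x₀ z x hs).trans_lt hz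
    have d3 : dist (qq x₀ y t) (qq x₀ y s) < δ / 2 := by
      rw [dist_comm, dist_qq]
      nlinarith [abs_nonneg (s - t), norm_nonneg (y - x₀), norm_nonneg (z - x₀)]
    have d4 : dist (qq x₀ z t) (qq x₀ z s) < δ / 2 := by
      rw [dist_comm, dist_qq]
      nlinarith [abs_nonneg (s - t), norm_nonneg (y - x₀), norm_nonneg (z - x₀)]
    have m1 : qq x₀ y s ∈ Metric.ball (qq x₀ x s) δ := by rw [Metric.mem_ball]; linarith
    have m2 : qq x₀ z s ∈ Metric.ball (qq x₀ x s) δ := by rw [Metric.mem_ball]; linarith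
    have m3 : qq x₀ y t ∈ Metric.ball (qq x₀ x s) δ := by
      rw [Metric.mem_ball]; exact (dist_triangle _ _ _).trans_lt (by linarith [d1, d3])
    have m4 : qq x₀ z t ∈ Metric.ball (qq x₀ x s) δ := by
      rw [Metric.mem_ball]; exact (dist_triangle _ _ _).trans_lt (by linarith [d2, d4])
    have j1 := h s hs _ m1 _ m3 _ m4
    have j2 := h s hs _ m1 _ m2 _ m4
    unfold dd at j1 j2
    show g t + b (qq x₀ y t) (qq x₀ z t) - g' t = g s + b (qq x₀ y s) (qq x₀ z s) - g' s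
    linarith)
  have q1 : ∀ w : E, qq x₀ w 1 = w := by intro w; unfold qq; simp
  have q0 : ∀ w : E, qq x₀ w 0 = x₀ := by intro w; unfold qq; simp
  simp only [q1, q0, hb0, hg0, hg0'] at key
  linarith

end

theorem t_CV : S_CV := by
  intro E _ _ S b hO hS hb
  classical
  rcases S.eq_empty_or_nonempty with rfl | ⟨x₀, h0⟩
  · exact ⟨fun _ => 0, fun x hx => absurd hx (notMem_empty x)⟩
  have hex : ∀ x, ∃ g : ℝ → ℝ, x ∈ S → HG b x₀ x g := by
    intro x
    by_cases hx : x ∈ S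
    · obtain ⟨δ, hδ, h⟩ := exists_NN hS hb h0 hx
      obtain ⟨g, hg⟩ := exists_HG hδ h
      exact ⟨g, fun _ => hg⟩
    · exact ⟨fun _ => 0, fun h => absurd h hx⟩
  choose g hg using hex
  refine ⟨fun x => g x 1, ?_⟩
  intro x hx
  obtain ⟨δ, hδ, h⟩ := exists_NN hS hb h0 hx
  refine ⟨Metric.ball x (δ / 2) ∩ S, Filter.inter_mem (Metric.ball_mem_nhds x (by positivity))
    (hO.mem_nhds hx), ?_⟩
  rintro y ⟨hy, hyS⟩ z ⟨hz, hzS⟩
  exact compare hδ h hy hz (hg y hyS) (hg z hzS)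

end Run7.h510.FL
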