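import Pool.Agent.Run7.h404.FL.Iface

set_option autoImplicit false
set_option linter.unusedVariables false

namespace Run7.h510.FL

open Set Topology Filter Run7.h404.FL

theorem t_GL : S_GL := by
  intro Q _ _ z h
  classical
  choose B hB hz using h
  have hr : ∀ q, ∃ r > 0, Metric.ball q r ⊆ B q := fun q => Metric.mem_nhds_iff.1 (hB q)
  choose r hr0 hrB using hr
  obtain ⟨t, -, ht⟩ := (isCompact_univ (X := Q)).elim_nhds_subcover (fun q => Metric.ball q (r q / 2))
    (fun q _ => Metric.ball_mem_nhds q (half_pos (hr0 q)))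
  have hi : ∀ x : Q, ∃ p ∈ t, x ∈ Metric.closedBall p (r p / 2) := by
    intro x
    have := ht (mem_univ x)
    rw [mem_iUnion₂] at this
    obtain ⟨p, hp, hx⟩ := this
    exact ⟨p, hp, Metric.ball_subset_closedBall hx⟩
  choose i hit hi using hi
  refine ⟨fun x y => z (i x) x y, ?_⟩
  intro q
  -- a neighbourhood for every `p`
  have hp : ∀ p : Q, ∃ U ∈ 𝓝 q, ∀ x ∈ U, ∀ y ∈ U, x ∈ Metric.closedBall p (r p / 2) →
      z p x y = z q x y := by
    intro p
    by_cases hq : q ∈ Metric.closedBall p (r p / 2)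
    · have hqB : q ∈ B p := hrB p (by
        rw [Metric.mem_closedBall] at hq
        rw [Metric.mem_ball]
        linarith [hr0 p])
      obtain ⟨U, hU, hUz⟩ := hz p q hqB
      exact ⟨U, hU, fun x hx y hy _ => hUz x hx y hy⟩
    · refine ⟨(Metric.closedBall p (r p / 2))ᶜ, Metric.isClosed_closedBall.isOpen_compl.mem_nhds hq,
        fun x hx y hy h => absurd h hx⟩
  choose U hU hUz using hp
  refine ⟨⋂ p ∈ t, U p, (Filter.biInter_finset_mem t).2 fun p _ => hU p, ?_⟩
  intro x hx y hy
  rw [mem_iInter₂] at hx hy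
  exact hUz (i x) x (hx _ (hit x)) y (hy _ (hit x)) (hi x)

end Run7.h510.FL
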